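import Pool.Agent.H27.LV.Targets2
import Pool.Agent.H64.SC.Api

set_option autoImplicit false

namespace Pool.Agent.H70.LV

open Pool.Agent.H27.LV SC

section
variable {k K : Type} [Field k] [Field K] [Algebra k K] {v : DV k K}

lemma ge_add {t : ℤ} {x y : K} (hx : ge v t x) (hy : ge v t y) : ge v t (x + y) := by
  by_cases h : x + y = 0
  · exact Or.inl h
  · exact Or.inr (v.ord_add_ge (fun h1 => hx.resolve_left h1) (fun h1 => hy.resolve_left h1) h)

lemma ge_sum {ι : Type} (s : Finset ι) (f : ι → K) {t : ℤ} (hf : ∀ i ∈ s, ge v t (f i)) :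
    ge v t (∑ i ∈ s, f i) := by
  by_cases h : ∑ i ∈ s, f i = 0
  · exact Or.inl h
  · exact Or.inr (v.ord_sum_ge s f (fun i hi h1 => (hf i hi).resolve_left h1) h)

lemma ge_mul {s t : ℤ} {x y : K} (hx : ge v s x) (hy : ge v t y) : ge v (s + t) (x * y) := by
  rcases hx with rfl | hx
  · left; rw [zero_mul]
  · rcases hy with rfl | hy
    · left; rw [mul_zero]
    · by_cases h1 : x = 0
      · left; rw [h1, zero_mul]
      by_cases h2 : y = 0
      · left; rw [h2, mul_zero]
      right
      rw [v.ord_mul' h1 h2]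
      omega

lemma ge_prod {ι : Type} (s : Finset ι) (f : ι → K) (t : ι → ℤ) (hf : ∀ i ∈ s, ge v (t i) (f i)) :
    ge v (∑ i ∈ s, t i) (∏ i ∈ s, f i) := by
  classical
  induction s using Finset.induction_on with
  | empty => right; simp [v.ord_one]
  | insert a s ha ih =>
    rw [Finset.sum_insert ha, Finset.prod_insert ha]
    exact ge_mul (hf a (Finset.mem_insert_self _ _))
      (ih fun i hi => hf i (Finset.mem_insert_of_mem hi))

lemma ge_neg {t : ℤ} {x : K} (hx : ge v t x) : ge v t (-x) := by
  rcases hx with rfl | hx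
  · left; rw [neg_zero]
  · right; rwa [v.ord_neg]

lemma ge_mono {s t : ℤ} (h : s ≤ t) {x : K} (hx : ge v t x) : ge v s x := by
  rcases hx with rfl | hx
  · exact Or.inl rfl
  · exact Or.inr (h.trans hx)

end

theorem wdt : T_WDT := by
  intro k K _ _ _ v R _ _ M w z hM
  rw [Matrix.det_apply]
  apply ge_sum
  intro σ _
  have h1 : ge v (∑ i, w i + ∑ j, z j) (∏ i, M (σ i) i) := by
    have h2 := ge_prod (v := v) Finset.univ (fun i => M (σ i) i) (fun i => w (σ i) + z i)
      (fun i _ => hM _ _)
    rwa [Finset.sum_add_distrib, Equiv.sum_comp σ w] at h2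
  rcases Int.units_eq_one_or (Equiv.Perm.sign σ) with h | h
  · rw [h, one_smul]; exact h1
  · rw [h, Units.neg_smul, one_smul]; exact ge_neg h1

theorem ldt (h1 : T_WDT) : T_LDT := by
  intro k K _ _ _ v R ι _ _ _ _ A B C δ I hA hB hC
  have hdet : (Matrix.fromBlocks 1 (-C) B A).det = (A + B * C).det := by
    rw [Matrix.det_fromBlocks_one₁₁]
    congr 1
    rw [Matrix.mul_neg, sub_neg_eq_add]
  rw [← hdet]
  have h2 := h1 k K v (ι ⊕ R) (Matrix.fromBlocks 1 (-C) B A) (Sum.elim (fun _ => 0) (fun _ => δ))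
    (Sum.elim (fun i => if i ∈ I then -1 else 0) (fun _ => 0)) ?_
  · refine ge_mono (le_of_eq ?_) h2
    rw [Fintype.sum_sum_type, Fintype.sum_sum_type]
    simp only [Sum.elim_inl, Sum.elim_inr, Finset.sum_const_zero, Finset.sum_const,
      Finset.card_univ, zero_add, add_zero, nsmul_eq_mul]
    rw [Finset.sum_ite_mem, Finset.univ_inter, Finset.sum_const]
    simp
    ring
  · rintro (i | p) (j | q)
    · simp only [Matrix.fromBlocks_apply₁₁, Sum.elim_inl]
      by_cases hij : i = j
      · subst hij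
        rw [Matrix.one_apply_eq]
        right
        rw [v.ord_one]
        split_ifs <;> omega
      · rw [Matrix.one_apply_ne hij]
        exact Or.inl rfl
    · simp only [Matrix.fromBlocks_apply₁₂, Sum.elim_inl, Sum.elim_inr, Matrix.neg_apply]
      exact ge_neg (hC _ _)
    · simp only [Matrix.fromBlocks_apply₂₁, Sum.elim_inl, Sum.elim_inr]
      refine ge_mono (le_of_eq ?_) (hB p j)
      split_ifs <;> ring
    · simp only [Matrix.fromBlocks_apply₂₂, Sum.elim_inr]
      rw [add_zero]
      exact hA p q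

end Pool.Agent.H70.LV
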