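import Pool.Agent.H26.LV.TargetsAri

/-!
# The majorant for polynomials (row ARP of the board ari)
-/

set_option autoImplicit false

open Finset Polynomial

namespace Pool.Agent.H70.LV

open Pool.Agent.H26.LV

theorem Maj_mono {q : ℕ} {A : ℤ → ℝ} {S₁ S₂ S₁' S₂' : ℝ} (h : Maj q A S₁ S₂) (h1 : S₁ ≤ S₁')
    (h2 : S₂ ≤ S₂') : Maj q A S₁' S₂' := by
  obtain ⟨n, a, T, x, h3, h4, h5, h6⟩ := h
  exact ⟨n, a, T, x, h3, h4, h5.trans h1, h6.trans h2⟩

theorem norm_ee (q : ℕ) (n : ℤ) : ‖ee q n‖ = 1 := by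
  unfold ee
  have h1 : 2 * (Real.pi : ℂ) * Complex.I * ((n : ℂ) / (q : ℂ)) =
      ((2 * Real.pi * ((n : ℝ) / (q : ℝ)) : ℝ) : ℂ) * Complex.I := by
    push_cast
    ring
  rw [h1, Complex.norm_exp_ofReal_mul_I]

theorem AA_one (F : ℤ[X]) (l : ℤ) : AA 1 F l = 1 := by
  unfold AA SS
  rw [Finset.sum_range_one, norm_mul, norm_ee]
  norm_num

theorem AA_nonneg (q : ℕ) (F : ℤ[X]) (l : ℤ) : 0 ≤ AA q F l := by
  unfold AA
  positivity

/-- The multiplicative factor. -/
noncomputable def PP (D : ℝ) (q : ℕ) : ℝ :=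
  ∏ p ∈ q.primeFactors, (D * ((q.factorization p : ℝ) + 1) ^ 2)

theorem PP_mul (D : ℝ) {a b : ℕ} (ha : a ≠ 0) (hb : b ≠ 0) (hab : a.Coprime b) :
    PP D (a * b) = PP D a * PP D b := by
  classical
  unfold PP
  rw [Nat.Coprime.primeFactors_mul hab, Finset.prod_union hab.disjoint_primeFactors]
  congr 1
  · apply Finset.prod_congr rfl
    intro p hp
    rw [Nat.factorization_mul ha hb, Finsupp.add_apply]
    have h1 : b.factorization p = 0 := by
      apply Nat.factorization_eq_zero_of_not_dvd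
      intro h
      have hpp := Nat.prime_of_mem_primeFactors hp
      have h2 := Nat.dvd_of_mem_primeFactors hp
      have h3 := Nat.dvd_gcd h2 h
      rw [hab] at h3
      exact hpp.one_lt.ne' (Nat.dvd_one.1 h3)
    rw [h1, add_zero]
  · apply Finset.prod_congr rfl
    intro p hp
    rw [Nat.factorization_mul ha hb, Finsupp.add_apply]
    have h1 : a.factorization p = 0 := by
      apply Nat.factorization_eq_zero_of_not_dvd
      intro h
      have hpp := Nat.prime_of_mem_primeFactors hp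
      have h2 := Nat.dvd_of_mem_primeFactors hp
      have h3 := Nat.dvd_gcd h h2
      rw [hab] at h3
      exact hpp.one_lt.ne' (Nat.dvd_one.1 h3)
    rw [h1, zero_add]

theorem Prm_mul {p q : ℕ} (hp : p.Prime) (hpq : p ∣ q) {c : ℤ} (hc : IsCoprime c (q : ℤ))
    {F : ℤ[X]} (hF : Prm p F) : Prm p (C c * F) := by
  obtain ⟨j, hj, hjF⟩ := hF
  refine ⟨j, hj, fun h => ?_⟩
  rw [coeff_C_mul] at h
  have hpi : Prime (p : ℤ) := Nat.prime_iff_prime_int.1 hp
  rcases hpi.dvd_or_dvd h with h1 | h1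
  · have h2 : (p : ℤ) ∣ (q : ℤ) := by exact_mod_cast hpq
    exact hpi.not_unit (hc.isUnit_of_dvd' h1 h2)
  · exact hjF h1

theorem pf_ARP (hPPA : T_PPA) (hPPB : T_PPB) (hMUL : T_MUL) (hDIV : T_DIV) : T_ARP := by
  intro k hk ε hε
  obtain ⟨CA, hCA, hA⟩ := hPPA k hk
  obtain ⟨CB, hCB, hB⟩ := hPPB k hk
  obtain ⟨hM1, hM2, hM3⟩ := hMUL
  set D := max CA CB with hD
  have hD1 : 1 ≤ D := hCA.trans (le_max_left _ _)
  obtain ⟨C₁, hC₁, hC⟩ := hDIV D ε hD1 hε
  have key : ∀ q : ℕ, 1 ≤ q → ∀ F : ℤ[X], F.natDegree ≤ k → (∀ p ∈ q.primeFactors, Prm p F) →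
      Maj q (AA q F) (PP D q) (PP D q * (q : ℝ) ^ (-(2 / (k : ℝ)))) := by
    intro q
    induction q using Nat.recOnPosPrimePosCoprime with
    | prime_pow p m hp hm =>
      intro _ F hF hPrm
      have hpf : (p ^ m).primeFactors = {p} := Nat.primeFactors_prime_pow hm.ne' hp
      have hP : PP D (p ^ m) = D * ((m : ℝ) + 1) ^ 2 := by
        unfold PP
        rw [hpf, Finset.prod_singleton, hp.factorization_pow, Finsupp.single_eq_same]
      have hpr := hPrm p (by rw [hpf]; exact Finset.mem_singleton_self p)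
      have hx : (0 : ℝ) ≤ ((p : ℝ) ^ m) ^ (-(2 / (k : ℝ))) := by positivity
      rw [hP, Nat.cast_pow]
      rcases lt_or_ge k p with h | h
      · refine Maj_mono (hA p m F hp h hF hpr) ?_ ?_
        · exact mul_le_mul_of_nonneg_right (le_max_left _ _) (by positivity)
        · apply mul_le_mul_of_nonneg_right _ hx
          exact mul_le_mul_of_nonneg_right (le_max_left _ _) (by positivity)
      · refine Maj_mono (hB p m F hp h hF hpr) ?_ ?_
        · exact mul_le_mul_of_nonneg_right (le_max_right _ _) (by positivity)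
        · apply mul_le_mul_of_nonneg_right _ hx
          exact mul_le_mul_of_nonneg_right (le_max_right _ _) (by positivity)
    | zero => intro h; omega
    | one =>
      intro _ F _ _
      refine ⟨1, fun _ => 1, fun _ => 1, fun _ => 0, fun _ => ⟨zero_le_one, one_dvd _⟩, ?_, ?_, ?_⟩
      · intro l
        rw [AA_one]
        simp
      · unfold PP
        simp
      · unfold PP
        simp
    | coprime a b ha hb hab iha ihb =>
      intro _ F hF hPrm
      obtain ⟨c₁, c₂, hc₁, hc₂, hAA⟩ := hM1 a b F ha.le hb.le hab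
      have ha0 : a ≠ 0 := by omega
      have hb0 : b ≠ 0 := by omega
      have h1 := iha ha.le (C c₁ * F) ((natDegree_C_mul_le _ _).trans hF) (by
        intro p hp
        refine Prm_mul (Nat.prime_of_mem_primeFactors hp) (Nat.dvd_of_mem_primeFactors hp) hc₁
          (hPrm p ?_)
        rw [Nat.Coprime.primeFactors_mul hab]
        exact Finset.mem_union_left _ hp)
      have h2 := ihb hb.le (C c₂ * F) ((natDegree_C_mul_le _ _).trans hF) (by
        intro p hp
        refine Prm_mul (Nat.prime_of_mem_primeFactors hp) (Nat.dvd_of_mem_primeFactors hp) hc₂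
          (hPrm p ?_)
        rw [Nat.Coprime.primeFactors_mul hab]
        exact Finset.mem_union_right _ hp)
      have h3 := hM3 a b _ _ _ _ _ _ ha.le hb.le hab (fun l => AA_nonneg _ _ _)
        (fun l => AA_nonneg _ _ _) (hM2 a c₁ _ _ _ hc₁ h1) (hM2 b c₂ _ _ _ hc₂ h2)
      have h4 : (fun l => AA a (C c₁ * F) (c₁ * l) * AA b (C c₂ * F) (c₂ * l)) =
          AA (a * b) F := by
        funext l
        exact (hAA l).symm
      rw [h4] at h3
      rw [PP_mul D ha0 hb0 hab]
      refine Maj_mono h3 le_rfl (le_of_eq ?_)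
      rw [Nat.cast_mul, Real.mul_rpow (Nat.cast_nonneg _) (Nat.cast_nonneg _)]
      ring
  refine ⟨C₁, hC₁, ?_⟩
  intro q F hq hF hPrm
  have hq0 : (0 : ℝ) < q := by exact_mod_cast hq
  have hPq : PP D q ≤ C₁ * (q : ℝ) ^ ε := hC q hq
  refine Maj_mono (key q hq F hF hPrm) hPq ?_
  have h1 : (0 : ℝ) ≤ (q : ℝ) ^ (-(2 / (k : ℝ))) := by positivity
  refine (mul_le_mul_of_nonneg_right hPq h1).trans (le_of_eq ?_)
  rw [mul_assoc, ← Real.rpow_add hq0, ← sub_eq_add_neg]

end Pool.Agent.H70.LV
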