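import Pool.Agent.H26.LV.TargetsAri

/-!
# The flat children of a disc (row FLT of the board ari)
-/

set_option autoImplicit false

open Finset Polynomial

namespace Pool.Agent.H70.LV

open Pool.Agent.H26.LV

/-- The number of zeros modulo `p` of a polynomial that is not zero modulo `p`. -/
theorem root_count (p : ℕ) (hp : p.Prime) (Q : ℤ[X]) (n : ℕ) (hn : Q.natDegree ≤ n)
    (hne : ∃ j, ¬ (p : ℤ) ∣ Q.coeff j) :
    ((range p).filter (fun t : ℕ => (p : ℤ) ∣ Q.eval (t : ℤ))).card ≤ n := by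
  classical
  have : Fact p.Prime := ⟨hp⟩
  obtain ⟨j, hj⟩ := hne
  set Qp : (ZMod p)[X] := Q.map (Int.castRingHom (ZMod p)) with hQp
  have h0 : Qp ≠ 0 := by
    intro h
    apply hj
    have h1 : Qp.coeff j = 0 := by rw [h, coeff_zero]
    rw [hQp, coeff_map, eq_intCast, ZMod.intCast_zmod_eq_zero_iff_dvd] at h1
    exact h1
  have h1 : ((range p).filter (fun t : ℕ => (p : ℤ) ∣ Q.eval (t : ℤ))).card ≤
      Qp.roots.toFinset.card := by
    apply Finset.card_le_card_of_injOn (fun t : ℕ => (t : ZMod p))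
    · intro t ht
      rw [Finset.mem_coe, Finset.mem_filter] at ht
      show (t : ZMod p) ∈ (Qp.roots.toFinset : Set (ZMod p))
      rw [Finset.mem_coe, Multiset.mem_toFinset, mem_roots h0, IsRoot.def]
      have h2 := (ZMod.intCast_zmod_eq_zero_iff_dvd (Q.eval (t : ℤ)) p).2 ht.2
      have h3 : ((t : ℤ) : ZMod p) = (t : ZMod p) := by push_cast; rfl
      rw [← h3, hQp, eval_intCast_map, eq_intCast]
      exact h2
    · intro t ht t' ht' h
      rw [Finset.mem_coe, Finset.mem_filter, Finset.mem_range] at ht ht'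
      have h2 := (ZMod.natCast_eq_natCast_iff' t t' p).1 h
      rw [Nat.mod_eq_of_lt ht.1, Nat.mod_eq_of_lt ht'.1] at h2
      exact h2
  refine h1.trans ((Multiset.toFinset_card_le _).trans ((card_roots' _).trans ?_))
  exact natDegree_map_le.trans hn

theorem choose_coprime {p j r : ℕ} (hp : p.Prime) (hj : j < p) (hr : r ≤ j) :
    ¬ p ∣ j.choose r := by
  intro h
  have h1 : p ∣ j.factorial := by
    rw [← Nat.choose_mul_factorial_mul_factorial hr, mul_assoc]
    exact h.mul_right _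
  rw [hp.dvd_factorial] at h1
  omega

/-- Cancelling a factor prime to `p`. -/
theorem cancel {p : ℕ} (hp : p.Prime) {n v : ℕ} {a b : ℤ} (hn : ¬ p ∣ n)
    (h : (p : ℤ) ^ v * a = (n : ℤ) * b) (ha : (p : ℤ) ∣ a) : (p : ℤ) ^ (v + 1) ∣ b := by
  have h1 : (p : ℤ) ^ (v + 1) ∣ (n : ℤ) * b := by
    rw [← h, pow_succ]
    exact mul_dvd_mul_left _ ha
  have h2 : IsCoprime ((p : ℤ) ^ (v + 1)) (n : ℤ) := by
    apply IsCoprime.pow_left
    rw [Nat.isCoprime_iff_coprime]
    exact (Nat.Prime.coprime_iff_not_dvd hp).2 hn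
  exact h2.dvd_of_dvd_mul_left h1

theorem pf_FLT (hTER : T_TER) (hVAL : T_VAL) : T_FLT := by
  classical
  intro k hk
  obtain ⟨C₁, hC₁, hT⟩ := hTER k hk
  obtain ⟨hV1, hV2, -, hV4, -, -⟩ := hVAL
  have hk1 : (1 : ℝ) ≤ (k : ℝ) ^ 2 := by
    have : (1 : ℝ) ≤ k := by exact_mod_cast (by omega : 1 ≤ k)
    nlinarith
  refine ⟨(k : ℝ) ^ 2 * C₁, by nlinarith, ?_⟩
  intro p m i v y F hp hkp hF hiv hvm hVge hnV
  have hp0 : (p : ℤ) ≠ 0 := by exact_mod_cast hp.ne_zero
  have hppos : (0 : ℝ) < p := by exact_mod_cast hp.pos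
  set G := dsc p i y F with hG
  have hGdeg : G.natDegree ≤ k := by
    rw [hG]
    unfold dsc
    refine natDegree_comp_le.trans ?_
    have h1 : (C y + C ((p : ℤ) ^ i) * X : ℤ[X]).natDegree ≤ 1 := by
      refine (natDegree_add_le _ _).trans ?_
      rw [natDegree_C]
      exact max_le (by norm_num) ((natDegree_C_mul_le _ _).trans natDegree_X_le)
    calc F.natDegree * (C y + C ((p : ℤ) ^ i) * X : ℤ[X]).natDegree ≤ k * 1 :=
          Nat.mul_le_mul hF h1
      _ = k := mul_one k
  obtain ⟨j, hj2, hj⟩ : ∃ j, 2 ≤ j ∧ ¬ (p : ℤ) ^ (v + 1) ∣ G.coeff j := by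
    unfold Vge at hnV
    push Not at hnV
    exact hnV
  have hjk : j ≤ k := by
    by_contra h
    push Not at h
    apply hj
    rw [coeff_eq_zero_of_natDegree_lt (lt_of_le_of_lt hGdeg h)]
    exact dvd_zero _
  -- the second Hasse derivative
  obtain ⟨Hb, hHb⟩ : C ((p : ℤ) ^ v) ∣ hasseDeriv 2 G := by
    rw [C_dvd_iff_dvd_coeff]
    intro n
    rw [hasseDeriv_coeff]
    exact (hVge (n + 2) (by omega)).mul_left _
  have hHbc : ∀ n, (p : ℤ) ^ v * Hb.coeff n = (((n + 2).choose 2 : ℕ) : ℤ) * G.coeff (n + 2) := by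
    intro n
    rw [← coeff_C_mul, ← hHb, hasseDeriv_coeff]
  have hHbdeg : Hb.natDegree ≤ k := by
    have h1 : (hasseDeriv 2 G).natDegree ≤ k :=
      (natDegree_hasseDeriv_le G 2).trans ((Nat.sub_le _ _).trans hGdeg)
    rw [hHb, natDegree_C_mul (pow_ne_zero _ hp0)] at h1
    exact h1
  have hHbne : ∃ n, ¬ (p : ℤ) ∣ Hb.coeff n := by
    refine ⟨j - 2, fun h => hj ?_⟩
    have h1 := hHbc (j - 2)
    rw [Nat.sub_add_cancel hj2] at h1
    exact cancel hp (choose_coprime hp (by omega) hj2) h1 h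
  set Fl := (range p).filter (fun t : ℕ => ¬ (p : ℤ) ∣ Hb.eval (t : ℤ)) with hFl
  -- the derivative
  obtain ⟨K, hK⟩ : C ((p : ℤ) ^ v) ∣ derivative G - C (G.coeff 1) := by
    rw [C_dvd_iff_dvd_coeff]
    intro n
    rw [coeff_sub, coeff_derivative, coeff_C]
    rcases Nat.eq_zero_or_pos n with h0 | h0
    · subst h0
      simp
    · rw [if_neg (by omega), sub_zero]
      exact (hVge (n + 1) (by omega)).mul_right _
  have hKdeg : K.natDegree ≤ k := by
    have h1 : (derivative G - C (G.coeff 1)).natDegree ≤ k := by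
      refine (natDegree_sub_le _ _).trans ?_
      rw [natDegree_C]
      exact max_le ((natDegree_derivative_le G).trans ((Nat.sub_le _ _).trans hGdeg))
        (Nat.zero_le _)
    rw [hK, natDegree_C_mul (pow_ne_zero _ hp0)] at h1
    exact h1
  have hKc : (p : ℤ) ^ v * K.coeff (j - 1) = ((j : ℕ) : ℤ) * G.coeff j := by
    rw [← coeff_C_mul, ← hK, coeff_sub, coeff_derivative, coeff_C, if_neg (by omega), sub_zero,
      Nat.sub_add_cancel (by omega : 1 ≤ j)]
    have h1 : (((j - 1 : ℕ) : ℤ) + 1) = j := by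
      rw [Nat.cast_sub (by omega)]
      push_cast
      ring
    rw [h1, mul_comm]
  have hderiv : ∀ t : ℤ, (p : ℤ) ^ i * (derivative F).eval (y + (p : ℤ) ^ i * t) =
      (derivative G).eval t := by
    intro t
    rw [hG]
    unfold dsc
    rw [derivative_comp, eval_mul, eval_comp]
    simp only [derivative_add, derivative_C, derivative_mul, derivative_X, zero_mul, zero_add,
      mul_one, eval_add, eval_C, eval_mul, eval_X]
  have hcoeff1 : G.coeff 1 = (p : ℤ) ^ i * (derivative F).eval y := by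
    have h1 := hderiv 0
    rw [mul_zero, add_zero] at h1
    rw [h1, ← coeff_zero_eq_eval_zero, coeff_derivative]
    simp
  have hF' : ∀ t : ℤ, (derivative F).eval (y + (p : ℤ) ^ i * t) =
      (derivative F).eval y + (p : ℤ) ^ (v - i) * K.eval t := by
    intro t
    have h1 : (derivative G).eval t = G.coeff 1 + (p : ℤ) ^ v * K.eval t := by
      have h2 := congrArg (eval t) hK
      rw [eval_sub, eval_C, eval_mul, eval_C] at h2
      linarith
    have h2 := hderiv t
    rw [h1, hcoeff1] at h2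
    have h3 : (p : ℤ) ^ v = (p : ℤ) ^ i * (p : ℤ) ^ (v - i) := by
      rw [← pow_add, Nat.add_sub_cancel' hiv]
    rw [h3, mul_assoc, ← mul_add] at h2
    exact mul_left_cancel₀ (pow_ne_zero _ hp0) h2
  have hGen : ∀ t ∈ Fl, Gen p 1 (v + 2) (dsc p (i + 1) (y + (p : ℤ) ^ i * (t : ℤ)) F) := by
    intro t ht
    rw [hFl, Finset.mem_filter] at ht
    rw [hV1 p i y t F, ← hG]
    have h2 : (dsc p 1 (t : ℤ) G).coeff 2 = (p : ℤ) ^ (v + 2) * Hb.eval (t : ℤ) := by
      rw [hV2 p 1 2 (t : ℤ) G, hHb, eval_mul, eval_C]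
      ring
    refine ⟨?_, ?_, ?_⟩
    · rw [h2]
      exact dvd_mul_right _ _
    · rw [h2, pow_succ]
      intro h3
      exact ht.2 ((mul_dvd_mul_iff_left (pow_ne_zero _ hp0)).1 h3)
    · intro r hr
      rw [hV2 p 1 r (t : ℤ) G]
      obtain ⟨E, hE⟩ : C ((p : ℤ) ^ v) ∣ hasseDeriv r G := by
        rw [C_dvd_iff_dvd_coeff]
        intro n
        rw [hasseDeriv_coeff]
        exact (hVge (n + r) (by omega)).mul_left _
      rw [hE, eval_mul, eval_C]
      refine ⟨(p : ℤ) ^ (r - 3) * E.eval (t : ℤ), ?_⟩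
      have h3 : (p : ℤ) ^ (1 * r) = (p : ℤ) ^ 3 * (p : ℤ) ^ (r - 3) := by
        rw [← pow_add]
        congr 1
        omega
      rw [h3]
      ring
  refine ⟨Fl, Finset.filter_subset _ _, ?_, hGen, ?_⟩
  · refine le_trans (le_of_eq ?_) (root_count p hp Hb k hHbdeg hHbne)
    congr 1
    rw [hFl]
    ext t
    simp only [Finset.mem_sdiff, Finset.mem_filter, Finset.mem_range]
    tauto
  · intro l
    set B : ℝ := C₁ / (p : ℝ) ^ (2 * i + (m - v)) with hB
    have hB0 : 0 ≤ B := by positivity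
    -- single terms
    have hterm : ∀ t ∈ Fl, ‖cD p m (i + 1) (y + (p : ℤ) ^ i * (t : ℤ)) F l‖ ≤
        if (p : ℤ) ^ (v - i + 1) ∣ l - (derivative F).eval (y + (p : ℤ) ^ i * (t : ℤ))
          then √B else 0 := by
      intro t ht
      have h1 := hT p m (i + 1) (v + 2) 1 (y + (p : ℤ) ^ i * (t : ℤ)) F l hp hF (by omega) hvm
        (by
          rw [hV1 p i y t F, ← hG]
          exact hV4 p v t G hVge)
        (Or.inr (Or.inr ⟨Or.inr ⟨by omega, rfl⟩, hGen t ht⟩))
      have e1 : v + 2 - (i + 1) = v - i + 1 := by omega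
      have e2 : 2 * (i + 1) + (m - (v + 2)) = 2 * i + (m - v) := by omega
      rw [e1, e2, ← hB] at h1
      split_ifs at h1 ⊢ with h2
      · exact Real.le_sqrt_of_sq_le h1
      · nlinarith [norm_nonneg (cD p m (i + 1) (y + (p : ℤ) ^ i * (t : ℤ)) F l)]
    have hnorm : ‖∑ t ∈ Fl, cD p m (i + 1) (y + (p : ℤ) ^ i * (t : ℤ)) F l‖ ≤
        ((Fl.filter (fun t : ℕ => (p : ℤ) ^ (v - i + 1) ∣
          l - (derivative F).eval (y + (p : ℤ) ^ i * (t : ℤ)))).card : ℝ) * √B := by
      refine (norm_sum_le _ _).trans ((Finset.sum_le_sum hterm).trans (le_of_eq ?_))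
      rw [← Finset.sum_filter, Finset.sum_const, nsmul_eq_mul]
    by_cases hd : (p : ℤ) ^ (v - i) ∣ l - (derivative F).eval y
    · rw [if_pos hd]
      obtain ⟨lam, hlam⟩ := hd
      have hcard : ((Fl.filter (fun t : ℕ => (p : ℤ) ^ (v - i + 1) ∣
          l - (derivative F).eval (y + (p : ℤ) ^ i * (t : ℤ)))).card) ≤ k := by
        have h1 : (Fl.filter (fun t : ℕ => (p : ℤ) ^ (v - i + 1) ∣
            l - (derivative F).eval (y + (p : ℤ) ^ i * (t : ℤ)))) ⊆
            (range p).filter (fun t : ℕ => (p : ℤ) ∣ (K - C lam).eval (t : ℤ)) := by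
          intro t ht
          rw [Finset.mem_filter] at ht ⊢
          refine ⟨(Finset.mem_filter.1 ht.1).1, ?_⟩
          have h2 := ht.2
          have h3 : l - (derivative F).eval (y + (p : ℤ) ^ i * (t : ℤ)) =
              (p : ℤ) ^ (v - i) * (lam - K.eval (t : ℤ)) := by
            rw [hF' t]
            linear_combination hlam
          rw [h3, pow_succ, mul_dvd_mul_iff_left (pow_ne_zero _ hp0)] at h2
          rw [eval_sub, eval_C]
          have h4 := (dvd_neg (α := ℤ)).2 h2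
          rwa [neg_sub] at h4
        refine (Finset.card_le_card h1).trans (root_count p hp (K - C lam) k ?_ ?_)
        · refine (natDegree_sub_le _ _).trans ?_
          rw [natDegree_C]
          exact max_le hKdeg (Nat.zero_le _)
        · refine ⟨j - 1, fun h => hj ?_⟩
          rw [coeff_sub, coeff_C, if_neg (by omega), sub_zero] at h
          refine cancel hp (n := j) (fun h5 => ?_) hKc h
          have := Nat.le_of_dvd (by omega) h5
          omega
      have h2 : ‖∑ t ∈ Fl, cD p m (i + 1) (y + (p : ℤ) ^ i * (t : ℤ)) F l‖ ≤ k * √B := by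
        refine hnorm.trans (mul_le_mul_of_nonneg_right ?_ (Real.sqrt_nonneg _))
        exact_mod_cast hcard
      have h3 := pow_le_pow_left₀ (norm_nonneg _) h2 2
      rw [mul_pow, Real.sq_sqrt hB0, hB] at h3
      refine h3.trans (le_of_eq ?_)
      ring
    · rw [if_neg hd]
      have h1 : (Fl.filter (fun t : ℕ => (p : ℤ) ^ (v - i + 1) ∣
          l - (derivative F).eval (y + (p : ℤ) ^ i * (t : ℤ)))) = ∅ := by
        rw [Finset.filter_eq_empty_iff]
        intro t _ h2
        apply hd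
        have h3 : (p : ℤ) ^ (v - i) ∣ l - (derivative F).eval (y + (p : ℤ) ^ i * (t : ℤ)) :=
          (pow_dvd_pow _ (Nat.le_succ _)).trans h2
        rw [hF' t] at h3
        have h4 : l - (derivative F).eval y =
            (l - ((derivative F).eval y + (p : ℤ) ^ (v - i) * K.eval (t : ℤ))) +
              (p : ℤ) ^ (v - i) * K.eval (t : ℤ) := by ring
        rw [h4]
        exact dvd_add h3 (dvd_mul_right _ _)
      rw [h1, Finset.card_empty, Nat.cast_zero, zero_mul] at hnorm
      have h2 := norm_nonneg (∑ t ∈ Fl, cD p m (i + 1) (y + (p : ℤ) ^ i * (t : ℤ)) F l)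
      nlinarith

end Pool.Agent.H70.LV
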